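import Mathlib

/-!
# The five classes of normed spaces with the angle `∠_ρ` are pairwise different
-/

open Filter Topology Metric Set

namespace Pool.Agent.Results.MP_843c3c_an.FiveClassesDiffer

/-- `X` has the angle `∠_ρ`. -/
def HasAngle (ρ : ℝ) (X : Type) [NormedAddCommGroup X] [NormedSpace ℝ X] : Prop :=
  ∀ x y : X, x ≠ 0 → y ≠ 0 →
    |(‖‖x‖⁻¹ • x + ‖y‖⁻¹ • y‖ ^ 2 - ‖‖x‖⁻¹ • x - ‖y‖⁻¹ • y‖ ^ 2) / 4| *
      ((‖‖x‖⁻¹ • x + ‖y‖⁻¹ • y‖ ^ 2 + ‖‖x‖⁻¹ • x - ‖y‖⁻¹ • y‖ ^ 2) / 4) ^ ρ ≤ 1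

/-- A class of real normed spaces. -/
abbrev NormClass : Type 1 := ∀ (X : Type) [NormedAddCommGroup X] [NormedSpace ℝ X], Prop

/-- The class of all real normed spaces. -/
def NORM : NormClass := fun _ _ _ => True

/-- The class of the real normed spaces that have the angle `∠_ρ`. -/
def NORMρ (ρ : ℝ) : NormClass := fun X _ _ => HasAngle ρ X

/-- Two classes are different: some normed space lies in one but not in the other. -/
def Differ (P Q : NormClass) : Prop :=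
  ∃ (X : Type) (_ : NormedAddCommGroup X) (_ : NormedSpace ℝ X), (P X ∧ ¬ Q X) ∨ (Q X ∧ ¬ P X)

section general
variable {X : Type} [NormedAddCommGroup X] [NormedSpace ℝ X]

lemma unit_norm {x : X} (hx : x ≠ 0) : ‖‖x‖⁻¹ • x‖ = 1 := by
  rw [norm_smul, norm_inv, norm_norm, inv_mul_cancel₀ (norm_ne_zero_iff.2 hx)]

/-- Numerical inequality for positive exponents. -/
lemma num_pos {c ρ p q : ℝ} (hc0 : 0 < c) (hc1 : c < 1) (hρ0 : 0 < ρ)
    (hρ : ρ ≤ (1 + c) / (1 - c)) (hp : 0 ≤ p) (hq : 0 ≤ q) (hpq : q ≤ p) (h : p + c * q ≤ 1) :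
    |p - q| * (p + q) ^ ρ ≤ 1 := by
  have h1c : 0 < 1 - c := by linarith
  rw [abs_of_nonneg (by linarith)]
  rcases le_total (p + q) 1 with hT | hT
  · have h1 : (p + q) ^ ρ ≤ 1 := Real.rpow_le_one (by linarith) hT hρ0.le
    calc (p - q) * (p + q) ^ ρ ≤ 1 * 1 := by
          apply mul_le_mul (by linarith) h1 (Real.rpow_nonneg (by linarith) _) zero_le_one
      _ = 1 := one_mul _
  · set ρ₀ := (1 + c) / (1 - c) with hρ₀
    set t := p + q - 1 with ht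
    have ht0 : 0 ≤ t := by rw [ht]; linarith
    have h2 : p - q ≤ 1 - ρ₀ * t := by
      have h3 : ρ₀ * t * (1 - c) = (1 + c) * t := by rw [hρ₀]; field_simp
      have h4 : (p - q) * (1 - c) ≤ (1 - ρ₀ * t) * (1 - c) := by
        have : (1 - ρ₀ * t) * (1 - c) = (1 - c) - (1 + c) * t := by rw [sub_mul, h3, one_mul]
        rw [this, ht]
        nlinarith
      exact le_of_mul_le_mul_right h4 h1c
    have h5 : (p + q) ^ ρ ≤ Real.exp (ρ₀ * t) := by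
      have e : p + q = 1 + t := by rw [ht]; ring
      rw [e]
      calc (1 + t) ^ ρ ≤ (1 + t) ^ ρ₀ := Real.rpow_le_rpow_of_exponent_le (by linarith) hρ
        _ ≤ (Real.exp t) ^ ρ₀ := by
            apply Real.rpow_le_rpow (by linarith) _ (by linarith)
            linarith [Real.add_one_le_exp t]
        _ = Real.exp (ρ₀ * t) := by rw [← Real.exp_mul, mul_comm]
    have h6 : p - q ≤ Real.exp (-(ρ₀ * t)) := by
      have := Real.add_one_le_exp (-(ρ₀ * t))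
      linarith
    calc (p - q) * (p + q) ^ ρ ≤ Real.exp (-(ρ₀ * t)) * Real.exp (ρ₀ * t) := by
          apply mul_le_mul h6 h5 (Real.rpow_nonneg (by linarith) _) (Real.exp_nonneg _)
      _ = 1 := by rw [← Real.exp_add]; simp

/-- Numerical inequality for negative exponents. -/
lemma num_neg {C γ p q : ℝ} (hC : 1 < C) (hγ0 : 0 < γ)
    (hγ : γ ≤ (C + 1) / (C - 1)) (hp : 0 ≤ p) (hq : 0 ≤ q) (hpq : q ≤ p) (hp1 : p ≤ 1)
    (h : 1 ≤ p + C * q) : |p - q| * (p + q) ^ (-γ) ≤ 1 := by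
  have h1c : 0 < C - 1 := by linarith
  have hT0 : 0 < p + q := by
    by_contra hcon
    have h1 : p = 0 := by linarith
    have h2 : q = 0 := by linarith
    rw [h1, h2] at h
    linarith
  rw [abs_of_nonneg (by linarith), Real.rpow_neg hT0.le, ← div_eq_mul_inv,
    div_le_one (Real.rpow_pos_of_pos hT0 _)]
  rcases le_total 1 (p + q) with hT | hT
  · have h1 : 1 ≤ (p + q) ^ γ := Real.one_le_rpow hT hγ0.le
    linarith
  · set γ₀ := (C + 1) / (C - 1) with hγ₀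
    have hγ₀1 : 1 ≤ γ₀ := by rw [hγ₀, le_div_iff₀ h1c]; linarith
    set t := 1 - (p + q) with ht
    have h2 : p - q ≤ 1 - γ₀ * t := by
      have h3 : γ₀ * t * (C - 1) = (C + 1) * t := by rw [hγ₀]; field_simp
      have h4 : (p - q) * (C - 1) ≤ (1 - γ₀ * t) * (C - 1) := by
        have : (1 - γ₀ * t) * (C - 1) = (C - 1) - (C + 1) * t := by rw [sub_mul, h3, one_mul]
        rw [this, ht]
        nlinarith
      exact le_of_mul_le_mul_right h4 h1c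
    have h5 : 1 - γ₀ * t ≤ (p + q) ^ γ₀ := by
      have h6 := one_add_mul_self_le_rpow_one_add (s := -t) (by linarith) hγ₀1
      have e : 1 + -t = p + q := by rw [ht]; ring
      rw [e] at h6
      linarith
    have h7 : (p + q) ^ γ₀ ≤ (p + q) ^ γ := Real.rpow_le_rpow_of_exponent_ge hT0 hT hγ
    linarith

lemma hasAngle_pos {c ρ : ℝ} (hc0 : 0 < c) (hc1 : c < 1) (hρ0 : 0 < ρ)
    (hρ : ρ ≤ (1 + c) / (1 - c))
    (h : ∀ x y : X, ‖x‖ = 1 → ‖y‖ = 1 → ‖x + y‖ ^ 2 + c * ‖x - y‖ ^ 2 ≤ 4) : HasAngle ρ X := by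
  intro x y hx hy
  set u := ‖x‖⁻¹ • x
  set v := ‖y‖⁻¹ • y
  have hu : ‖u‖ = 1 := unit_norm hx
  have hv : ‖v‖ = 1 := unit_norm hy
  have h1 := h u v hu hv
  have h2 := h u (-v) hu (by rw [norm_neg, hv])
  rw [sub_neg_eq_add, ← sub_eq_add_neg] at h2
  have e1 : (‖u + v‖ ^ 2 - ‖u - v‖ ^ 2) / 4 = ‖u + v‖ ^ 2 / 4 - ‖u - v‖ ^ 2 / 4 := by ring
  have e2 : (‖u + v‖ ^ 2 + ‖u - v‖ ^ 2) / 4 = ‖u + v‖ ^ 2 / 4 + ‖u - v‖ ^ 2 / 4 := by ring
  rw [e1, e2]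
  rcases le_total (‖u - v‖ ^ 2 / 4) (‖u + v‖ ^ 2 / 4) with hle | hle
  · exact num_pos hc0 hc1 hρ0 hρ (by positivity) (by positivity) hle (by linarith)
  · rw [abs_sub_comm, add_comm (‖u + v‖ ^ 2 / 4)]
    exact num_pos hc0 hc1 hρ0 hρ (by positivity) (by positivity) hle (by linarith)

lemma hasAngle_neg {C γ : ℝ} (hC : 1 < C) (hγ0 : 0 < γ) (hγ : γ ≤ (C + 1) / (C - 1))
    (h : ∀ x y : X, ‖x‖ = 1 → ‖y‖ = 1 → 4 ≤ ‖x + y‖ ^ 2 + C * ‖x - y‖ ^ 2) :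
    HasAngle (-γ) X := by
  intro x y hx hy
  set u := ‖x‖⁻¹ • x
  set v := ‖y‖⁻¹ • y
  have hu : ‖u‖ = 1 := unit_norm hx
  have hv : ‖v‖ = 1 := unit_norm hy
  have h1 := h u v hu hv
  have h2 := h u (-v) hu (by rw [norm_neg, hv])
  rw [sub_neg_eq_add, ← sub_eq_add_neg] at h2
  have h3 : ‖u + v‖ ≤ 2 := (norm_add_le _ _).trans (by rw [hu, hv]; norm_num)
  have h4 : ‖u - v‖ ≤ 2 := (norm_sub_le _ _).trans (by rw [hu, hv]; norm_num)
  have h5 : ‖u + v‖ ^ 2 ≤ 4 := by nlinarith [norm_nonneg (u + v)]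
  have h6 : ‖u - v‖ ^ 2 ≤ 4 := by nlinarith [norm_nonneg (u - v)]
  have e1 : (‖u + v‖ ^ 2 - ‖u - v‖ ^ 2) / 4 = ‖u + v‖ ^ 2 / 4 - ‖u - v‖ ^ 2 / 4 := by ring
  have e2 : (‖u + v‖ ^ 2 + ‖u - v‖ ^ 2) / 4 = ‖u + v‖ ^ 2 / 4 + ‖u - v‖ ^ 2 / 4 := by ring
  rw [e1, e2]
  rcases le_total (‖u - v‖ ^ 2 / 4) (‖u + v‖ ^ 2 / 4) with hle | hle
  · exact num_neg hC hγ0 hγ (by positivity) (by positivity) hle (by linarith) (by linarith)
  · rw [abs_sub_comm, add_comm (‖u + v‖ ^ 2 / 4)]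
    exact num_neg hC hγ0 hγ (by positivity) (by positivity) hle (by linarith) (by linarith)

/-- The dual statement. -/
lemma dual_bound {c : ℝ} (hc0 : 0 < c)
    (h : ∀ x y : X, ‖x + y‖ ^ 2 + c * ‖x - y‖ ^ 2 ≤ 2 * ‖x‖ ^ 2 + 2 * ‖y‖ ^ 2)
    (φ ψ : StrongDual ℝ X) (hφ : ‖φ‖ = 1) (hψ : ‖ψ‖ = 1) :
    4 ≤ ‖φ + ψ‖ ^ 2 + c⁻¹ * ‖φ - ψ‖ ^ 2 := by
  set S := ‖φ + ψ‖ ^ 2 + c⁻¹ * ‖φ - ψ‖ ^ 2 with hS
  have hS0 : 0 ≤ S := by positivity
  -- almost norming vectors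
  have hnorming : ∀ f : StrongDual ℝ X, ‖f‖ = 1 → ∀ η : ℝ, 0 < η →
      ∃ u : X, ‖u‖ ≤ 1 ∧ 1 - η < f u := by
    intro f hf η hη
    by_contra hcon
    push Not at hcon
    have h0 : 0 ≤ 1 - η := by
      have := hcon 0 (by simp)
      rwa [map_zero] at this
    have h1 : ‖f‖ ≤ 1 - η := by
      apply f.opNorm_le_of_unit_norm h0
      intro z hz
      rw [Real.norm_eq_abs, abs_le]
      constructor
      · have := hcon (-z) (by rw [norm_neg, hz])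
        rw [map_neg] at this
        linarith
      · exact hcon z hz.le
    linarith
  have key : ∀ η : ℝ, 0 < η → η < 1 → (4 - 4 * η) ≤ 2 * Real.sqrt S := by
    intro η hη hη1
    obtain ⟨x, hx, hφx⟩ := hnorming φ hφ η hη
    obtain ⟨y, hy, hψy⟩ := hnorming ψ hψ η hη
    have e1 : (φ + ψ) (x + y) + (φ - ψ) (x - y) = 2 * φ x + 2 * ψ y := by
      simp only [add_apply, sub_apply, map_add, map_sub]; ring
    have h1 : (φ + ψ) (x + y) ≤ ‖φ + ψ‖ * ‖x + y‖ :=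
      (le_abs_self _).trans ((φ + ψ).le_opNorm _)
    have h2 : (φ - ψ) (x - y) ≤ ‖φ - ψ‖ * ‖x - y‖ :=
      (le_abs_self _).trans ((φ - ψ).le_opNorm _)
    have h3 : ‖x + y‖ ^ 2 + c * ‖x - y‖ ^ 2 ≤ 4 := by
      refine (h x y).trans ?_
      have h4 : ‖x‖ ^ 2 ≤ 1 := pow_le_one₀ (norm_nonneg _) hx
      have h5 : ‖y‖ ^ 2 ≤ 1 := pow_le_one₀ (norm_nonneg _) hy
      linarith
    -- Cauchy-Schwarz
    have h6 : (‖φ + ψ‖ * ‖x + y‖ + ‖φ - ψ‖ * ‖x - y‖) ^ 2 ≤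
        S * (‖x + y‖ ^ 2 + c * ‖x - y‖ ^ 2) := by
      have e2 : S * (‖x + y‖ ^ 2 + c * ‖x - y‖ ^ 2) -
          (‖φ + ψ‖ * ‖x + y‖ + ‖φ - ψ‖ * ‖x - y‖) ^ 2 =
          c * (‖φ + ψ‖ * ‖x - y‖ - c⁻¹ * ‖φ - ψ‖ * ‖x + y‖) ^ 2 := by
        rw [hS]; field_simp; ring
      have : 0 ≤ c * (‖φ + ψ‖ * ‖x - y‖ - c⁻¹ * ‖φ - ψ‖ * ‖x + y‖) ^ 2 := by positivity
      linarith
    have h7 : (‖φ + ψ‖ * ‖x + y‖ + ‖φ - ψ‖ * ‖x - y‖) ^ 2 ≤ (2 * Real.sqrt S) ^ 2 := by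
      refine h6.trans ?_
      rw [mul_pow, Real.sq_sqrt hS0]
      nlinarith
    have h8 : ‖φ + ψ‖ * ‖x + y‖ + ‖φ - ψ‖ * ‖x - y‖ ≤ 2 * Real.sqrt S :=
      (pow_le_pow_iff_left₀ (by positivity) (by positivity) two_ne_zero).1 h7
    linarith
  have h9 : 4 ≤ 2 * Real.sqrt S := by
    apply le_of_forall_pos_le_add
    intro ε hε
    have h10 := key (min (ε / 4) (1 / 2)) (lt_min (by positivity) (by norm_num))
      (lt_of_le_of_lt (min_le_right _ _) (by norm_num))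
    have h11 := min_le_left (ε / 4) (1 / 2)
    linarith
  have h12 : 2 ≤ Real.sqrt S := by linarith
  have h13 := Real.sq_sqrt hS0
  nlinarith

end general

/-- Positive derivative at zero. -/
lemma exists_gt {F : ℝ → ℝ} {F' : ℝ} (hF : HasDerivAt F F' 0) (hF' : 0 < F') {η : ℝ}
    (hη : 0 < η) : ∃ t, 0 < t ∧ t < η ∧ F 0 < F t := by
  have h1 := hasDerivAt_iff_tendsto_slope_zero.1 hF
  have h2 : ∀ᶠ t in 𝓝[≠] (0 : ℝ), 0 < t⁻¹ • (F (0 + t) - F 0) := h1.eventually (lt_mem_nhds hF')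
  have h3 : ∀ᶠ t in 𝓝[>] (0 : ℝ), 0 < t⁻¹ • (F (0 + t) - F 0) :=
    h2.filter_mono (nhdsWithin_mono 0 fun t ht => ne_of_gt ht)
  have h4 : ∀ᶠ t in 𝓝[>] (0 : ℝ), t < η := nhdsWithin_le_nhds (Iio_mem_nhds hη)
  have h5 : ∀ᶠ t in 𝓝[>] (0 : ℝ), 0 < t := eventually_mem_nhdsWithin
  obtain ⟨t, ⟨ht1, ht2⟩, ht3⟩ := ((h3.and h4).and h5).exists
  refine ⟨t, ht3, ht2, ?_⟩
  rw [zero_add, smul_eq_mul] at ht1
  have := (mul_pos_iff_of_pos_left (inv_pos.2 ht3)).1 ht1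
  linarith

/-! ### The two-dimensional spaces -/

/-- The embedding of the plane into `ℂ × ℂ` with the maximum norm. -/
noncomputable def T (c : ℝ) : ℝ × ℝ →ₗ[ℝ] ℂ × ℂ where
  toFun p := (⟨p.1, Real.sqrt c * p.2⟩, ⟨Real.sqrt c * p.1, p.2⟩)
  map_add' p q := by
    apply Prod.ext <;> apply Complex.ext <;> simp [mul_add]
  map_smul' a p := by
    apply Prod.ext <;> apply Complex.ext <;> simp <;> ring

/-- The plane with norm `max (√(a²+cb²)) (√(ca²+b²))`, as a subspace of `ℂ × ℂ`. -/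
def XP (c : ℝ) : Type := LinearMap.range (T c)

noncomputable instance (c : ℝ) : NormedAddCommGroup (XP c) :=
  inferInstanceAs (NormedAddCommGroup (LinearMap.range (T c)))

noncomputable instance (c : ℝ) : NormedSpace ℝ (XP c) :=
  inferInstanceAs (NormedSpace ℝ (LinearMap.range (T c)))

/-- The vector with coordinates `a, b`. -/
noncomputable def vec (c : ℝ) : ℝ × ℝ →ₗ[ℝ] XP c := (T c).rangeRestrict

lemma vec_surj (c : ℝ) (x : XP c) : ∃ p, vec c p = x := (T c).surjective_rangeRestrict x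

lemma norm_vec (c : ℝ) (hc : 0 ≤ c) (a b : ℝ) :
    ‖vec c (a, b)‖ = max (Real.sqrt (a ^ 2 + c * b ^ 2)) (Real.sqrt (c * a ^ 2 + b ^ 2)) := by
  have h1 : ‖vec c (a, b)‖ = max ‖(⟨a, Real.sqrt c * b⟩ : ℂ)‖ ‖(⟨Real.sqrt c * a, b⟩ : ℂ)‖ := rfl
  rw [h1, Complex.norm_def, Complex.norm_def, Complex.normSq_mk, Complex.normSq_mk]
  have e1 : a * a + Real.sqrt c * b * (Real.sqrt c * b) = a ^ 2 + c * b ^ 2 := by
    have := Real.mul_self_sqrt hc
    calc a * a + Real.sqrt c * b * (Real.sqrt c * b) =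
        a ^ 2 + (Real.sqrt c * Real.sqrt c) * b ^ 2 := by ring
      _ = _ := by rw [this]
  have e2 : Real.sqrt c * a * (Real.sqrt c * a) + b * b = c * a ^ 2 + b ^ 2 := by
    have := Real.mul_self_sqrt hc
    calc Real.sqrt c * a * (Real.sqrt c * a) + b * b =
        (Real.sqrt c * Real.sqrt c) * a ^ 2 + b ^ 2 := by ring
      _ = _ := by rw [this]
  rw [e1, e2]

lemma norm_sq_vec (c : ℝ) (hc : 0 ≤ c) (a b : ℝ) :
    ‖vec c (a, b)‖ ^ 2 = max (a ^ 2 + c * b ^ 2) (c * a ^ 2 + b ^ 2) := by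
  rw [norm_vec c hc]
  rcases le_total (a ^ 2 + c * b ^ 2) (c * a ^ 2 + b ^ 2) with h | h
  · rw [max_eq_right h, max_eq_right (Real.sqrt_le_sqrt h), Real.sq_sqrt (by positivity)]
  · rw [max_eq_left h, max_eq_left (Real.sqrt_le_sqrt h), Real.sq_sqrt (by positivity)]

lemma XP_bound {c : ℝ} (hc0 : 0 < c) (hc1 : c < 1) (x y : XP c) :
    ‖x + y‖ ^ 2 + c * ‖x - y‖ ^ 2 ≤ 2 * ‖x‖ ^ 2 + 2 * ‖y‖ ^ 2 := by
  obtain ⟨⟨a, b⟩, rfl⟩ := vec_surj c x
  obtain ⟨⟨a', b'⟩, rfl⟩ := vec_surj c y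
  rw [← map_add, ← map_sub, Prod.mk_add_mk, Prod.mk_sub_mk, norm_sq_vec c hc0.le,
    norm_sq_vec c hc0.le, norm_sq_vec c hc0.le, norm_sq_vec c hc0.le]
  have hx1 := le_max_left (a ^ 2 + c * b ^ 2) (c * a ^ 2 + b ^ 2)
  have hx2 := le_max_right (a ^ 2 + c * b ^ 2) (c * a ^ 2 + b ^ 2)
  have hy1 := le_max_left (a' ^ 2 + c * b' ^ 2) (c * a' ^ 2 + b' ^ 2)
  have hy2 := le_max_right (a' ^ 2 + c * b' ^ 2) (c * a' ^ 2 + b' ^ 2)
  have hcc : c * c ≤ 1 := by nlinarith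
  have hA := sq_nonneg (a - a')
  have hB := sq_nonneg (b - b')
  rcases max_choice ((a + a') ^ 2 + c * (b + b') ^ 2) (c * (a + a') ^ 2 + (b + b') ^ 2) with
    h | h <;>
  rcases max_choice ((a - a') ^ 2 + c * (b - b') ^ 2) (c * (a - a') ^ 2 + (b - b') ^ 2) with
    h' | h' <;> rw [h, h']
  · have : c * ((a - a') ^ 2 + c * (b - b') ^ 2) ≤ (a - a') ^ 2 + c * (b - b') ^ 2 :=
      mul_le_of_le_one_left (by positivity) hc1.le
    linarith
  · have : c * (c * (a - a') ^ 2 + (b - b') ^ 2) ≤ (a - a') ^ 2 + c * (b - b') ^ 2 := by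
      nlinarith
    linarith
  · have : c * ((a - a') ^ 2 + c * (b - b') ^ 2) ≤ c * (a - a') ^ 2 + (b - b') ^ 2 := by
      nlinarith
    linarith
  · have : c * (c * (a - a') ^ 2 + (b - b') ^ 2) ≤ c * (a - a') ^ 2 + (b - b') ^ 2 :=
      mul_le_of_le_one_left (by positivity) hc1.le
    linarith

lemma XP_bound_unit {c : ℝ} (hc0 : 0 < c) (hc1 : c < 1) (x y : XP c) (hx : ‖x‖ = 1)
    (hy : ‖y‖ = 1) : ‖x + y‖ ^ 2 + c * ‖x - y‖ ^ 2 ≤ 4 := by
  have := XP_bound hc0 hc1 x y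
  rw [hx, hy] at this
  linarith

/-- Reformulation of the failure of the angle for unit vectors. -/
lemma not_hasAngle {X : Type} [NormedAddCommGroup X] [NormedSpace ℝ X] {ρ p q : ℝ} (x y : X)
    (hx : ‖x‖ = 1) (hy : ‖y‖ = 1) (hp : ‖x + y‖ ^ 2 = 4 * p) (hq : ‖x - y‖ ^ 2 = 4 * q)
    (h : 1 < (p - q) * (p + q) ^ ρ) : ¬ HasAngle ρ X := by
  intro hX
  have hx0 : x ≠ 0 := by
    rintro rfl
    rw [norm_zero] at hx
    norm_num at hx
  have hy0 : y ≠ 0 := by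
    rintro rfl
    rw [norm_zero] at hy
    norm_num at hy
  have h1 := hX x y hx0 hy0
  rw [hx, hy, inv_one, one_smul, one_smul, hp, hq] at h1
  have e1 : (4 * p - 4 * q) / 4 = p - q := by ring
  have e2 : (4 * p + 4 * q) / 4 = p + q := by ring
  rw [e1, e2] at h1
  have hpq0 : 0 ≤ p + q := by
    have h3 := sq_nonneg ‖x + y‖
    have h4 := sq_nonneg ‖x - y‖
    rw [hp] at h3
    rw [hq] at h4
    linarith
  have h2 : (p - q) * (p + q) ^ ρ ≤ |p - q| * (p + q) ^ ρ :=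
    mul_le_mul_of_nonneg_right (le_abs_self _) (Real.rpow_nonneg hpq0 _)
  linarith

lemma XP_hasAngle {c ρ : ℝ} (hc0 : 0 < c) (hc1 : c < 1) (hρ0 : 0 < ρ)
    (hρ : ρ ≤ (1 + c) / (1 - c)) : HasAngle ρ (XP c) :=
  hasAngle_pos hc0 hc1 hρ0 hρ (XP_bound_unit hc0 hc1)

lemma XP_not_pos {c ρ : ℝ} (hc0 : 0 < c) (hc1 : c < 1) (hρ : (1 + c) / (1 - c) < ρ) :
    ¬ HasAngle ρ (XP c) := by
  have h1c : 0 < 1 - c := by linarith
  rw [div_lt_iff₀ h1c] at hρ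
  -- the function of `q`
  have hd : HasDerivAt (fun q : ℝ => (1 - (1 + c) * q) * (1 + (1 - c) * q) ^ ρ)
      (-(1 + c) + (1 - c) * ρ) 0 := by
    have h1 : HasDerivAt (fun q : ℝ => 1 - (1 + c) * q) (-(1 + c)) 0 := by
      simpa using ((hasDerivAt_id (0 : ℝ)).const_mul (1 + c)).const_sub 1
    have h2 : HasDerivAt (fun q : ℝ => 1 + (1 - c) * q) (1 - c) 0 := by
      simpa using ((hasDerivAt_id (0 : ℝ)).const_mul (1 - c)).const_add 1
    have h3 := h2.rpow_const (p := ρ) (by left; norm_num)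
    refine (h1.mul h3).congr_deriv ?_
    norm_num
  obtain ⟨q, hq0, hq1, hq⟩ := exists_gt hd (by linarith) (η := 1 / 2) (by norm_num)
  simp only [mul_zero, sub_zero, add_zero, Real.one_rpow, mul_one] at hq
  set b := Real.sqrt q with hb
  have hb2 : b ^ 2 = q := Real.sq_sqrt hq0.le
  have hcq : c * q ≤ q := mul_le_of_le_one_left hq0.le hc1.le
  set a := Real.sqrt (1 - c * q) with ha
  have ha2 : a ^ 2 = 1 - c * q := Real.sq_sqrt (by linarith)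
  have hnx : ∀ s : ℝ, s ^ 2 = 1 → ‖vec c (a, s * b)‖ = 1 := by
    intro s hs
    have h1 : ‖vec c (a, s * b)‖ ^ 2 = 1 := by
      rw [norm_sq_vec c hc0.le, mul_pow, hs, one_mul, ha2, hb2]
      rw [max_eq_left]
      · ring
      · have : c * (c * q) ≥ 0 := by positivity
        nlinarith
    exact (pow_eq_one_iff_of_nonneg (norm_nonneg _) two_ne_zero).1 h1
  apply not_hasAngle (p := 1 - c * q) (q := q) (vec c (a, b)) (vec c (a, -b))
  · simpa using hnx 1 (by norm_num)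
  · simpa using hnx (-1) (by norm_num)
  · rw [← map_add, Prod.mk_add_mk, add_neg_cancel, norm_sq_vec c hc0.le]
    rw [max_eq_left]
    · rw [← ha2]; ring
    · have : 0 ≤ (a + a) ^ 2 := by positivity
      nlinarith
  · rw [← map_sub, Prod.mk_sub_mk, sub_self, sub_neg_eq_add, norm_sq_vec c hc0.le]
    rw [max_eq_right]
    · rw [← hb2]; ring
    · have : 0 ≤ (b + b) ^ 2 := by positivity
      nlinarith
  · have e1 : 1 - c * q - q = 1 - (1 + c) * q := by ring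
    have e2 : 1 - c * q + q = 1 + (1 - c) * q := by ring
    rw [e1, e2]
    exact hq

lemma XP_not_neg {c γ : ℝ} (hc0 : 0 < c) (hc1 : c < 1) (hγ : 1 < γ) :
    ¬ HasAngle (-γ) (XP c) := by
  have h1c : 0 < 1 - c := by linarith
  set D : ℝ → ℝ := fun t => (1 + c) * (1 + t ^ 2) + 2 * (1 - c) * t with hD
  have hDd : HasDerivAt D (2 * (1 - c)) 0 := by
    have h1 : HasDerivAt (fun t : ℝ => (1 + c) * (1 + t ^ 2)) ((1 + c) * (2 * 0 ^ (2 - 1) * 1)) 0 := by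
      exact (((hasDerivAt_id (0 : ℝ)).pow 2).const_add 1).const_mul (1 + c)
    have h2 : HasDerivAt (fun t : ℝ => 2 * (1 - c) * t) (2 * (1 - c) * 1) 0 :=
      (hasDerivAt_id (0 : ℝ)).const_mul (2 * (1 - c))
    exact (h1.add h2).congr_deriv (by norm_num)
  have hD0 : D 0 = 1 + c := by simp [hD]
  have hDpos : ∀ t, 0 ≤ t → 0 < D t := fun t ht => by simp only [hD]; positivity
  have hd : HasDerivAt (fun t : ℝ => ((1 + c) * (1 - t ^ 2) / D t) *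
      ((1 + c) * (1 + t ^ 2) / D t) ^ (-γ)) ((γ - 1) * (2 * (1 - c)) / (1 + c)) 0 := by
    have h1 : HasDerivAt (fun t : ℝ => (1 + c) * (1 - t ^ 2)) 0 0 := by
      have h := (((hasDerivAt_id (0 : ℝ)).pow 2).const_sub 1).const_mul (1 + c)
      simpa using h
    have h2 : HasDerivAt (fun t : ℝ => (1 + c) * (1 + t ^ 2)) 0 0 := by
      have h := (((hasDerivAt_id (0 : ℝ)).pow 2).const_add 1).const_mul (1 + c)
      simpa using h
    have hne : D 0 ≠ 0 := by rw [hD0]; linarith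
    have h3 : HasDerivAt (fun t : ℝ => (1 + c) * (1 - t ^ 2) / D t)
        ((0 * D 0 - (1 + c) * (1 - (0 : ℝ) ^ 2) * (2 * (1 - c))) / D 0 ^ 2) 0 := h1.div hDd hne
    have h4 : HasDerivAt (fun t : ℝ => (1 + c) * (1 + t ^ 2) / D t)
        ((0 * D 0 - (1 + c) * (1 + (0 : ℝ) ^ 2) * (2 * (1 - c))) / D 0 ^ 2) 0 := h2.div hDd hne
    have hc1' : (1 + c) ≠ 0 := by linarith
    have hval : (1 + c) * (1 + (0 : ℝ) ^ 2) / D 0 = 1 := by
      rw [hD0]; field_simp; norm_num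
    have hval' : (1 + c) * (1 - (0 : ℝ) ^ 2) / D 0 = 1 := by
      rw [hD0]; field_simp; norm_num
    have h5 := h4.rpow_const (p := -γ) (by left; rw [hval]; norm_num)
    refine (h3.mul h5).congr_deriv ?_
    rw [hval, hval', Real.one_rpow, Real.one_rpow, hD0]
    field_simp
    ring
  obtain ⟨t, ht0, ht1, ht⟩ := exists_gt hd (by
    have : 0 < 1 + c := by linarith
    have : 0 < γ - 1 := by linarith
    positivity) (η := 1) one_pos
  have hval : (1 + c) * (1 + (0 : ℝ) ^ 2) / D 0 = 1 := by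
    rw [hD0]
    have : (1 + c) ≠ 0 := by linarith
    field_simp; norm_num
  have hval' : (1 + c) * (1 - (0 : ℝ) ^ 2) / D 0 = 1 := by
    rw [hD0]
    have : (1 + c) ≠ 0 := by linarith
    field_simp; norm_num
  rw [hval, hval', Real.one_rpow, mul_one] at ht
  have hDt := hDpos t ht0.le
  set m := Real.sqrt (1 / D t) with hm
  have hm2 : m ^ 2 = 1 / D t := Real.sq_sqrt (by positivity)
  have hm0 : 0 < m := Real.sqrt_pos.2 (by positivity)
  have hmD : m ^ 2 * D t = 1 := by rw [hm2]; field_simp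
  have hDt' : D t = (1 + c) * (1 + t ^ 2) + 2 * (1 - c) * t := rfl
  set a := m * (1 + t) with ha
  set b := m * (1 - t) with hb
  have hcc : c * c ≤ 1 := by nlinarith
  have hab2 : b ^ 2 ≤ a ^ 2 := by
    rw [ha, hb, mul_pow, mul_pow]
    apply mul_le_mul_of_nonneg_left _ (sq_nonneg m)
    nlinarith
  have hmax : c * a ^ 2 + b ^ 2 ≤ a ^ 2 + c * b ^ 2 := by nlinarith
  have hone : a ^ 2 + c * b ^ 2 = 1 := by
    have e : a ^ 2 + c * b ^ 2 = m ^ 2 * D t := by rw [ha, hb, hDt']; ring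
    rw [e, hmD]
  apply not_hasAngle (p := (1 + c) / D t) (q := (1 + c) * t ^ 2 / D t) (vec c (a, b))
    (vec c (b, a))
  · have h1 : ‖vec c (a, b)‖ ^ 2 = 1 := by
      rw [norm_sq_vec c hc0.le, max_eq_left hmax, hone]
    exact (pow_eq_one_iff_of_nonneg (norm_nonneg _) two_ne_zero).1 h1
  · have h1 : ‖vec c (b, a)‖ ^ 2 = 1 := by
      rw [norm_sq_vec c hc0.le, max_eq_right (by linarith)]
      linarith
    exact (pow_eq_one_iff_of_nonneg (norm_nonneg _) two_ne_zero).1 h1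
  · rw [← map_add, Prod.mk_add_mk, norm_sq_vec c hc0.le, add_comm b a, max_eq_left (by linarith)]
    have e1 : (a + b) ^ 2 + c * (a + b) ^ 2 = 4 * ((1 + c) * m ^ 2) := by rw [ha, hb]; ring
    rw [e1, hm2]; ring
  · rw [← map_sub, Prod.mk_sub_mk, norm_sq_vec c hc0.le]
    have e0 : (b - a) ^ 2 = (a - b) ^ 2 := by ring
    rw [e0, max_eq_left (by linarith)]
    have e1 : (a - b) ^ 2 + c * (a - b) ^ 2 = 4 * ((1 + c) * t ^ 2 * m ^ 2) := by
      rw [ha, hb]; ring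
    rw [e1, hm2]; ring
  · have e1 : (1 + c) / D t - (1 + c) * t ^ 2 / D t = (1 + c) * (1 - t ^ 2) / D t := by ring
    have e2 : (1 + c) / D t + (1 + c) * t ^ 2 / D t = (1 + c) * (1 + t ^ 2) / D t := by ring
    rw [e1, e2]
    exact ht

/-! ### The dual plane -/

lemma dual_hasAngle {c γ : ℝ} (hc0 : 0 < c) (hc1 : c < 1) (hγ0 : 0 < γ)
    (hγ : γ ≤ (c⁻¹ + 1) / (c⁻¹ - 1)) : HasAngle (-γ) (StrongDual ℝ (XP c)) :=
  hasAngle_neg ((one_lt_inv₀ hc0).2 hc1) hγ0 hγ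
    fun φ ψ hφ hψ => dual_bound hc0 (XP_bound hc0 hc1) φ ψ hφ hψ

/-- The first coordinate on `XP c`. -/
noncomputable def co1 (c : ℝ) : XP c →ₗ[ℝ] ℝ where
  toFun x := x.1.1.re
  map_add' x y := rfl
  map_smul' a x := by
    show (a • x.1.1).re = a • x.1.1.re
    simp

/-- The second coordinate on `XP c`. -/
noncomputable def co2 (c : ℝ) : XP c →ₗ[ℝ] ℝ where
  toFun x := x.1.2.im
  map_add' x y := rfl
  map_smul' a x := by
    show (a • x.1.2).im = a • x.1.2.im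
    simp

lemma co1_vec (c a b : ℝ) : co1 c (vec c (a, b)) = a := rfl

lemma co2_vec (c a b : ℝ) : co2 c (vec c (a, b)) = b := rfl

lemma fun_bound {c : ℝ} (hc0 : 0 < c) (u v : ℝ) (x : XP c) :
    ‖(u • co1 c + v • co2 c) x‖ ≤ Real.sqrt (u ^ 2 + c⁻¹ * v ^ 2) * ‖x‖ := by
  obtain ⟨⟨a, b⟩, rfl⟩ := vec_surj c x
  rw [LinearMap.add_apply, LinearMap.smul_apply, LinearMap.smul_apply, co1_vec, co2_vec,
    smul_eq_mul, smul_eq_mul, Real.norm_eq_abs]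
  apply abs_le_of_sq_le_sq _ (by positivity)
  rw [mul_pow, Real.sq_sqrt (by positivity), norm_sq_vec c hc0.le]
  have h1 : (u * a + v * b) ^ 2 ≤ (u ^ 2 + c⁻¹ * v ^ 2) * (a ^ 2 + c * b ^ 2) := by
    have e : (u ^ 2 + c⁻¹ * v ^ 2) * (a ^ 2 + c * b ^ 2) - (u * a + v * b) ^ 2 =
        c⁻¹ * (c * (u * b) - v * a) ^ 2 := by
      field_simp
      ring
    have : 0 ≤ c⁻¹ * (c * (u * b) - v * a) ^ 2 := by positivity
    linarith
  exact h1.trans (mul_le_mul_of_nonneg_left (le_max_left _ _) (by positivity))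

/-- The functional `(a,b) ↦ ua + vb`. -/
noncomputable def fn {c : ℝ} (hc0 : 0 < c) (u v : ℝ) : StrongDual ℝ (XP c) :=
  LinearMap.mkContinuous (u • co1 c + v • co2 c) _ (fun_bound hc0 u v)

lemma fn_vec {c : ℝ} (hc0 : 0 < c) (u v a b : ℝ) : fn hc0 u v (vec c (a, b)) = u * a + v * b := rfl

lemma fn_add {c : ℝ} (hc0 : 0 < c) (u v u' v' : ℝ) :
    fn hc0 u v + fn hc0 u' v' = fn hc0 (u + u') (v + v') := by
  ext x
  obtain ⟨⟨a, b⟩, rfl⟩ := vec_surj c x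
  rw [add_apply, fn_vec, fn_vec, fn_vec]; ring

lemma fn_sub {c : ℝ} (hc0 : 0 < c) (u v u' v' : ℝ) :
    fn hc0 u v - fn hc0 u' v' = fn hc0 (u - u') (v - v') := by
  ext x
  obtain ⟨⟨a, b⟩, rfl⟩ := vec_surj c x
  rw [sub_apply, fn_vec, fn_vec, fn_vec]; ring

lemma norm_fn {c : ℝ} (hc0 : 0 < c) (hc1 : c < 1) (u v : ℝ) (h : c⁻¹ * |v| ≤ |u|) (hu : u ≠ 0) :
    ‖fn hc0 u v‖ = Real.sqrt (u ^ 2 + c⁻¹ * v ^ 2) := by
  set S := u ^ 2 + c⁻¹ * v ^ 2 with hS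
  have hS0 : 0 < S := by positivity
  apply le_antisymm
  · exact LinearMap.mkContinuous_norm_le _ (Real.sqrt_nonneg _) _
  · have h1 := (fn hc0 u v).le_opNorm (vec c (u, c⁻¹ * v))
    rw [fn_vec] at h1
    have e1 : u * u + v * (c⁻¹ * v) = S := by rw [hS]; ring
    have e2 : ‖vec c (u, c⁻¹ * v)‖ = Real.sqrt S := by
      rw [norm_vec c hc0.le]
      have e3 : u ^ 2 + c * (c⁻¹ * v) ^ 2 = S := by rw [hS]; field_simp
      have e4 : c * u ^ 2 + (c⁻¹ * v) ^ 2 ≤ u ^ 2 + c * (c⁻¹ * v) ^ 2 := by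
        have h2 : (c⁻¹ * v) ^ 2 ≤ u ^ 2 := by
          rw [← sq_abs, ← sq_abs u, abs_mul, abs_of_pos (inv_pos.2 hc0)]
          exact pow_le_pow_left₀ (by positivity) h 2
        nlinarith
      rw [max_eq_left (Real.sqrt_le_sqrt e4), e3]
    rw [e1, e2, Real.norm_of_nonneg hS0.le] at h1
    have h3 : 0 < Real.sqrt S := Real.sqrt_pos.2 hS0
    have h4 : Real.sqrt S * Real.sqrt S = S := Real.mul_self_sqrt hS0.le
    have h5 : Real.sqrt S * Real.sqrt S ≤ ‖fn hc0 u v‖ * Real.sqrt S := by rw [h4]; exact h1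
    exact le_of_mul_le_mul_right h5 h3

lemma norm_fn_snd {c : ℝ} (hc0 : 0 < c) (hc1 : c < 1) (v : ℝ) : ‖fn hc0 0 v‖ = |v| := by
  apply le_antisymm
  · apply ContinuousLinearMap.opNorm_le_bound _ (abs_nonneg _)
    intro x
    obtain ⟨⟨a, b⟩, rfl⟩ := vec_surj c x
    rw [fn_vec, zero_mul, zero_add, norm_mul, Real.norm_eq_abs]
    apply mul_le_mul_of_nonneg_left _ (abs_nonneg _)
    rw [Real.norm_eq_abs]
    apply abs_le_of_sq_le_sq _ (norm_nonneg _)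
    rw [norm_sq_vec c hc0.le]
    have := le_max_right (a ^ 2 + c * b ^ 2) (c * a ^ 2 + b ^ 2)
    have h2 : 0 ≤ c * a ^ 2 := by positivity
    linarith
  · have h1 := (fn hc0 0 v).le_opNorm (vec c (0, 1))
    rw [fn_vec, norm_vec c hc0.le] at h1
    have e1 : max (Real.sqrt ((0 : ℝ) ^ 2 + c * 1 ^ 2)) (Real.sqrt (c * 0 ^ 2 + 1 ^ 2)) = 1 := by
      rw [max_eq_right]
      · simp
      · apply Real.sqrt_le_sqrt
        nlinarith
    rw [e1] at h1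
    simpa using h1

lemma dual_not_neg {c δ : ℝ} (hc0 : 0 < c) (hc1 : c < 1) (hδ : (c⁻¹ + 1) / (c⁻¹ - 1) < δ) :
    ¬ HasAngle (-δ) (StrongDual ℝ (XP c)) := by
  set C := c⁻¹ with hC
  have hC1 : 1 < C := (one_lt_inv₀ hc0).2 hc1
  have hC0 : 0 < C := by linarith
  have hC' : 0 < C - 1 := by linarith
  rw [div_lt_iff₀ hC'] at hδ
  have hd : HasDerivAt (fun q : ℝ => (1 - (C + 1) * q) * (1 - (C - 1) * q) ^ (-δ))
      (-(C + 1) + (C - 1) * δ) 0 := by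
    have h1 : HasDerivAt (fun q : ℝ => 1 - (C + 1) * q) (-(C + 1)) 0 := by
      simpa using ((hasDerivAt_id (0 : ℝ)).const_mul (C + 1)).const_sub 1
    have h2 : HasDerivAt (fun q : ℝ => 1 - (C - 1) * q) (-(C - 1)) 0 := by
      simpa using ((hasDerivAt_id (0 : ℝ)).const_mul (C - 1)).const_sub 1
    have h3 := h2.rpow_const (p := -δ) (by left; norm_num)
    refine (h1.mul h3).congr_deriv ?_
    norm_num
    ring
  obtain ⟨q, hq0, hq1, hq⟩ := exists_gt hd (by linarith) (η := 1 / (2 * C ^ 2)) (by positivity)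
  simp only [mul_zero, sub_zero, Real.one_rpow, mul_one] at hq
  set v := Real.sqrt q with hv
  have hv2 : v ^ 2 = q := Real.sq_sqrt hq0.le
  have hv0 : 0 ≤ v := Real.sqrt_nonneg _
  have hCq : C ^ 2 * q < 1 / 2 := by
    rw [lt_div_iff₀ (by positivity)] at hq1
    linarith
  have hCq' : C * q ≤ C ^ 2 * q := by
    apply mul_le_mul_of_nonneg_right _ hq0.le
    nlinarith
  set u := Real.sqrt (1 - C * q) with hu
  have hu2 : u ^ 2 = 1 - C * q := Real.sq_sqrt (by linarith)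
  have hu0 : 0 < u := Real.sqrt_pos.2 (by linarith)
  have hCv : C * v ≤ u := by
    apply (pow_le_pow_iff_left₀ (by positivity) hu0.le two_ne_zero).1
    rw [mul_pow, hv2, hu2]
    linarith
  have hfn : ∀ s : ℝ, |s| = 1 → ‖fn hc0 u (s * v)‖ = 1 := by
    intro s hs
    rw [norm_fn hc0 hc1 _ _ _ hu0.ne']
    · have hs2 : s ^ 2 = 1 := by rw [← sq_abs, hs]; norm_num
      rw [mul_pow, hs2, one_mul, hu2, hv2, ← hC]
      simp
    · rw [abs_mul, hs, one_mul, abs_of_nonneg hv0, abs_of_pos hu0]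
      exact hCv
  apply not_hasAngle (p := 1 - C * q) (q := q) (fn hc0 u v) (fn hc0 u (-v))
  · simpa using hfn 1 (by norm_num)
  · simpa using hfn (-1) (by norm_num)
  · rw [fn_add, add_neg_cancel, norm_fn hc0 hc1 _ _ (by simp) (by linarith)]
    rw [Real.sq_sqrt (by positivity), ← hu2]; ring
  · rw [fn_sub, sub_self, sub_neg_eq_add, norm_fn_snd hc0 hc1, sq_abs, ← hv2]; ring
  · have e1 : 1 - C * q - q = 1 - (C + 1) * q := by ring
    have e2 : 1 - C * q + q = 1 - (C - 1) * q := by ring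
    rw [e1, e2]
    exact hq

theorem result (α β γ δ : ℝ) (hγ : 1 < γ) (hγδ : γ < δ) (hα : 1 < α) (hαβ : α < β) :
    List.Pairwise Differ [NORMρ (-δ), NORMρ (-γ), NORM, NORMρ α, NORMρ β] ∧
    (∃ (X : Type) (_ : NormedAddCommGroup X) (_ : NormedSpace ℝ X),
      HasAngle (-γ) X ∧ ¬ HasAngle (-δ) X) ∧
    (∃ (X : Type) (_ : NormedAddCommGroup X) (_ : NormedSpace ℝ X),
      HasAngle α X ∧ ¬ HasAngle β X) := by
  -- parameters
  have hpar : ∀ t : ℝ, 1 < t → ∃ c : ℝ, 0 < c ∧ c < 1 ∧ (1 + c) / (1 - c) = t := by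
    intro t ht
    refine ⟨(t - 1) / (t + 1), div_pos (by linarith) (by linarith), ?_, ?_⟩
    · rw [div_lt_one (by linarith)]; linarith
    · have h1 : t + 1 ≠ 0 := by linarith
      have h2 : 1 - (t - 1) / (t + 1) = 2 / (t + 1) := by field_simp; ring
      have h3 : 1 + (t - 1) / (t + 1) = 2 * t / (t + 1) := by field_simp; ring
      rw [h2, h3]
      field_simp
  have hinv : ∀ c : ℝ, 0 < c → c < 1 → (c⁻¹ + 1) / (c⁻¹ - 1) = (1 + c) / (1 - c) := by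
    intro c hc0 hc1
    have h1 : c ≠ 0 := hc0.ne'
    have h2 : 1 - c ≠ 0 := by linarith
    have h3 : c⁻¹ - 1 ≠ 0 := by
      have : c⁻¹ - 1 = (1 - c) / c := by field_simp
      rw [this]
      exact div_ne_zero h2 h1
    rw [div_eq_div_iff h3 h2]
    field_simp
  obtain ⟨cγ, hcγ0, hcγ1, hcγ⟩ := hpar γ hγ
  obtain ⟨cα, hcα0, hcα1, hcα⟩ := hpar α hα
  obtain ⟨cβ, hcβ0, hcβ1, hcβ⟩ := hpar β (by linarith)
  obtain ⟨cm, hcm0, hcm1, hcm⟩ := hpar ((1 + α) / 2) (by linarith)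
  have h1 : HasAngle (-γ) (StrongDual ℝ (XP cγ)) :=
    dual_hasAngle hcγ0 hcγ1 (by linarith) (by rw [hinv _ hcγ0 hcγ1, hcγ])
  have h2 : ¬ HasAngle (-δ) (StrongDual ℝ (XP cγ)) :=
    dual_not_neg hcγ0 hcγ1 (by rw [hinv _ hcγ0 hcγ1, hcγ]; exact hγδ)
  have h3 : HasAngle α (XP cα) := XP_hasAngle hcα0 hcα1 (by linarith) hcα.ge
  have h4 : ¬ HasAngle β (XP cα) := XP_not_pos hcα0 hcα1 (by rw [hcα]; exact hαβ)
  have h5 : HasAngle β (XP cβ) := XP_hasAngle hcβ0 hcβ1 (by linarith) hcβ.ge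
  have h6 : HasAngle α (XP cβ) := XP_hasAngle hcβ0 hcβ1 (by linarith) (by rw [hcβ]; exact hαβ.le)
  have h7 : ¬ HasAngle (-γ) (XP cβ) := XP_not_neg hcβ0 hcβ1 hγ
  have h8 : ¬ HasAngle (-δ) (XP cβ) := XP_not_neg hcβ0 hcβ1 (hγ.trans hγδ)
  have h9 : ¬ HasAngle α (XP cm) := XP_not_pos hcm0 hcm1 (by rw [hcm]; linarith)
  have h10 : ¬ HasAngle β (XP cm) := XP_not_pos hcm0 hcm1 (by rw [hcm]; linarith)
  refine ⟨?_, ⟨StrongDual ℝ (XP cγ), inferInstance, inferInstance, h1, h2⟩,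
    ⟨XP cα, inferInstance, inferInstance, h3, h4⟩⟩
  simp only [List.pairwise_cons, List.mem_cons, List.not_mem_nil, or_false, forall_eq_or_imp,
    forall_eq, List.Pairwise.nil, and_true, IsEmpty.forall_iff, implies_true]
  refine ⟨⟨?_, ?_, ?_, ?_⟩, ⟨?_, ?_, ?_⟩, ⟨?_, ?_⟩, ?_⟩
  · exact ⟨StrongDual ℝ (XP cγ), inferInstance, inferInstance, Or.inr ⟨h1, h2⟩⟩
  · exact ⟨XP cβ, inferInstance, inferInstance, Or.inr ⟨trivial, h8⟩⟩
  · exact ⟨XP cβ, inferInstance, inferInstance, Or.inr ⟨h6, h8⟩⟩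
  · exact ⟨XP cβ, inferInstance, inferInstance, Or.inr ⟨h5, h8⟩⟩
  · exact ⟨XP cβ, inferInstance, inferInstance, Or.inr ⟨trivial, h7⟩⟩
  · exact ⟨XP cβ, inferInstance, inferInstance, Or.inr ⟨h6, h7⟩⟩
  · exact ⟨XP cβ, inferInstance, inferInstance, Or.inr ⟨h5, h7⟩⟩
  · exact ⟨XP cm, inferInstance, inferInstance, Or.inl ⟨trivial, h9⟩⟩
  · exact ⟨XP cm, inferInstance, inferInstance, Or.inl ⟨trivial, h10⟩⟩
  · exact ⟨XP cα, inferInstance, inferInstance, Or.inl ⟨h3, h4⟩⟩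

end Pool.Agent.Results.MP_843c3c_an.FiveClassesDiffer
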